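import Pool.Agent.H59.Zar.Basic

/-!
# Section 5.2, `m = 2`: calculus along a field of Zariski tangent vectors
-/

set_option autoImplicit false

open scoped InnerProductSpace Topology ContDiff
open Set Filter

namespace Pool.Agent.H15.S5

open Pool.Agent.H59.Zar

variable {G W W' : Type*} [NormedAddCommGroup G] [NormedSpace ℝ G] [FiniteDimensional ℝ G]
  [NormedAddCommGroup W] [NormedSpace ℝ W] [NormedAddCommGroup W'] [NormedSpace ℝ W']
  {E : Type*} [NormedAddCommGroup E] [InnerProductSpace ℝ E] [FiniteDimensional ℝ E]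
  {R O O' : Set G} {D : G → G}

/-- Derivative in the direction of the field `D`. -/
noncomputable def dd (D : G → G) (h : G → W) (q : G) : W := fderiv ℝ h q (D q)

omit [FiniteDimensional ℝ G] in
theorem dd_smooth (hO : IsOpen O) (hD : ContDiffOn ℝ ∞ D O) {h : G → W}
    (hh : ContDiffOn ℝ ∞ h O) : ContDiffOn ℝ ∞ (dd D h) O := by
  have h1 : ContDiffOn ℝ ∞ (fderiv ℝ h) O := hh.fderiv_of_isOpen hO (by norm_num)
  exact h1.clm_apply hD

omit [FiniteDimensional ℝ G] in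
theorem sm_smul {a : G → ℝ} {b : G → W} (ha : ContDiffOn ℝ ∞ a O) (hb : ContDiffOn ℝ ∞ b O) :
    ContDiffOn ℝ ∞ (fun q => a q • b q) O := ha.smul hb

omit [FiniteDimensional ℝ G] in
theorem sm_add {a b : G → W} (ha : ContDiffOn ℝ ∞ a O) (hb : ContDiffOn ℝ ∞ b O) :
    ContDiffOn ℝ ∞ (fun q => a q + b q) O := ha.add hb

omit [FiniteDimensional ℝ G] in
theorem sm_neg {a : G → W} (ha : ContDiffOn ℝ ∞ a O) :
    ContDiffOn ℝ ∞ (fun q => -a q) O := ha.neg

omit [FiniteDimensional ℝ G] in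
theorem sm_prod {a : G → W} {b : G → W'} (ha : ContDiffOn ℝ ∞ a O) (hb : ContDiffOn ℝ ∞ b O) :
    ContDiffOn ℝ ∞ (fun q => (a q, b q)) O := ha.prodMk hb

omit [FiniteDimensional ℝ G] in
theorem dAt (hO : IsOpen O) {h : G → W} (hh : ContDiffOn ℝ ∞ h O) {q : G} (hq : q ∈ O) :
    DifferentiableAt ℝ h q :=
  ((hh q hq).contDiffAt (hO.mem_nhds hq)).differentiableAt (by simp)

omit [FiniteDimensional ℝ G] in
theorem dd_congr (hO : IsOpen O) {h h' : G → W} (he : ∀ q ∈ O, h q = h' q) {q : G} (hq : q ∈ O) :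
    dd D h q = dd D h' q := by
  have h1 : h =ᶠ[𝓝 q] h' := by
    filter_upwards [hO.mem_nhds hq] with y hy
    exact he y hy
  show fderiv ℝ h q (D q) = fderiv ℝ h' q (D q)
  rw [h1.fderiv_eq]

omit [FiniteDimensional ℝ G] in
theorem dd_smul {a : G → ℝ} {b : G → W} {q : G} (ha : DifferentiableAt ℝ a q)
    (hb : DifferentiableAt ℝ b q) :
    dd D (fun q => a q • b q) q = dd D a q • b q + a q • dd D b q := by
  have h1 := (ha.hasFDerivAt.smul hb.hasFDerivAt).fderiv
  show fderiv ℝ (fun q => a q • b q) q (D q) = _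
  have h2 : fderiv ℝ (fun q => a q • b q) q = a q • fderiv ℝ b q +
    (fderiv ℝ a q).smulRight (b q) := h1
  rw [h2]
  show a q • fderiv ℝ b q (D q) + fderiv ℝ a q (D q) • b q = _
  rw [add_comm]
  rfl

omit [FiniteDimensional ℝ G] in
theorem dd_mul {a b : G → ℝ} {q : G} (ha : DifferentiableAt ℝ a q)
    (hb : DifferentiableAt ℝ b q) :
    dd D (fun q => a q * b q) q = dd D a q * b q + a q * dd D b q :=
  dd_smul ha hb

omit [FiniteDimensional ℝ G] in
theorem dd_add {a b : G → W} {q : G} (ha : DifferentiableAt ℝ a q)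
    (hb : DifferentiableAt ℝ b q) :
    dd D (fun q => a q + b q) q = dd D a q + dd D b q := by
  have h1 : fderiv ℝ (fun q => a q + b q) q = _ := (ha.hasFDerivAt.add hb.hasFDerivAt).fderiv
  show fderiv ℝ (fun q => a q + b q) q (D q) = _
  rw [h1]; rfl

omit [FiniteDimensional ℝ G] in
theorem dd_neg {a : G → W} {q : G} : dd D (fun q => -a q) q = -dd D a q := by
  show fderiv ℝ (fun q => -a q) q (D q) = _
  have h1 : (fun q => -a q) = -a := rfl
  rw [h1, fderiv_neg]; rfl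

omit [FiniteDimensional ℝ G] in
theorem dd_sub {a b : G → W} {q : G} (ha : DifferentiableAt ℝ a q)
    (hb : DifferentiableAt ℝ b q) :
    dd D (fun q => a q - b q) q = dd D a q - dd D b q := by
  have h1 : fderiv ℝ (fun q => a q - b q) q = _ := (ha.hasFDerivAt.sub hb.hasFDerivAt).fderiv
  show fderiv ℝ (fun q => a q - b q) q (D q) = _
  rw [h1]; rfl

omit [FiniteDimensional ℝ G] in
theorem dd_prod {a : G → W} {b : G → W'} {q : G} (ha : DifferentiableAt ℝ a q)
    (hb : DifferentiableAt ℝ b q) :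
    dd D (fun q => (a q, b q)) q = (dd D a q, dd D b q) := by
  have h1 : fderiv ℝ (fun q => (a q, b q)) q = _ := (ha.hasFDerivAt.prodMk hb.hasFDerivAt).fderiv
  show fderiv ℝ (fun q => (a q, b q)) q (D q) = _
  rw [h1]; rfl

omit [FiniteDimensional ℝ G] in
theorem dd_clm {B : G → W →L[ℝ] W'} {b : G → W} {q : G} (hB : DifferentiableAt ℝ B q)
    (hb : DifferentiableAt ℝ b q) :
    dd D (fun q => B q (b q)) q = dd D B q (b q) + B q (dd D b q) := by
  have h1 : fderiv ℝ (fun q => B q (b q)) q = _ := (hB.hasFDerivAt.clm_apply hb.hasFDerivAt).fderiv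
  show fderiv ℝ (fun q => B q (b q)) q (D q) = _
  rw [h1]
  show B q (fderiv ℝ b q (D q)) + fderiv ℝ B q (D q) (b q) = _
  rw [add_comm]; rfl

/-- Identities on `R` can be differentiated along `D`. -/
theorem dd_van [FiniteDimensional ℝ W] (hO : IsOpen O) (hD : ∀ q ∈ R, q ∈ O → D q ∈ ZT R q)
    {h : G → W} (hh : ContDiffOn ℝ ∞ h O) (h0 : ∀ q ∈ R, q ∈ O → h q = 0) :
    ∀ q ∈ R, q ∈ O → dd D h q = 0 := by
  intro q hq hqO
  exact fderiv_eq_zero' (hO.mem_nhds hqO) hh h0 (hD q hq hqO)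

/-- The kernel of `B` is preserved. -/
theorem dd_ker [FiniteDimensional ℝ W'] (hO : IsOpen O) (hD : ∀ q ∈ R, q ∈ O → D q ∈ ZT R q)
    {B : G → W →L[ℝ] W'} (hB : ContDiffOn ℝ ∞ B O) (hB0 : ∀ q ∈ R, q ∈ O → dd D B q = 0)
    {Z : G → W} (hZ : ContDiffOn ℝ ∞ Z O) (h0 : ∀ q ∈ R, q ∈ O → B q (Z q) = 0) :
    ∀ q ∈ R, q ∈ O → B q (dd D Z q) = 0 := by
  intro q hq hqO
  have h1 := dd_van hO hD (hB.clm_apply hZ) h0 q hq hqO
  rw [dd_clm (dAt hO hB hqO) (dAt hO hZ hqO), hB0 q hq hqO] at h1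
  simpa using h1

end Pool.Agent.H15.S5
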