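import Pool.Agent.H77.SN.Facts
import Pool.Agent.H59.Zar.Om

/-!
# The vertical pairs form a line if `Y` has dimension two
-/

set_option autoImplicit false

open scoped InnerProductSpace Topology ContDiff
open Set Filter

namespace Pool.Agent.H15.S5

open Pool.Agent.H91.GE hiding G1 G11 Nondeg Br exists_br cF smooth_cF Cfg mem_TSet_of_map
open Pool.Agent.H59.LV Pool.Agent.H59.ND Pool.Agent.H59.Zar Pool.Agent.H77.SN

variable {E F : Type*} [NormedAddCommGroup E] [InnerProductSpace ℝ E] [FiniteDimensional ℝ E]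
  [NormedAddCommGroup F] [InnerProductSpace ℝ F] [FiniteDimensional ℝ F]
  {S : Set E} {A : E × E → E} {K K₂ : NNReal} {Φ : ℝ → E × E → E × E} {n m : ℕ}

theorem mem_TZ_iff {p : (E × E) × (E × E)} {ξ : E × E} :
    ξ ∈ TZ Φ S p ↔ (((0, ξ.1), (0, ξ.2)) : (E × E) × (E × E)) ∈ ZT (RR Φ S) p := Iff.rfl

theorem flow_right_inv (h : GFlow F S A K K₂ Φ) (L : ℝ) (w c : E × E) :
    fderiv ℝ (Φ L) w (fderiv ℝ (Φ (-L)) (Φ L w) c) = c := by
  have h1 := fderiv_flow_inv h (-L) (Φ L w) c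
  rwa [neg_neg, flow_inv h] at h1

theorem ZTR_fst (h : GFlow F S A K K₂ Φ) {p a : (E × E) × (E × E)} (ha : a ∈ ZT (RR Φ S) p) :
    a.1 ∈ ZT (UT S) p.1 := by
  have h1 := map_mem_ZT (R := RR Φ S) (R' := UT S) (Θ := (Prod.fst : (E × E) × (E × E) → E × E))
    (p := p) (a := a) (U := univ) univ_mem contDiff_fst.contDiffOn (fun q hq _ => hq.1) ha
  rwa [fderiv_fst] at h1

theorem ZTR_snd (h : GFlow F S A K K₂ Φ) {p a : (E × E) × (E × E)} (ha : a ∈ ZT (RR Φ S) p) :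
    a.2 ∈ ZT (UT S) p.2 := by
  have h1 := map_mem_ZT (R := RR Φ S) (R' := UT S) (Θ := (Prod.snd : (E × E) × (E × E) → E × E))
    (p := p) (a := a) (U := univ) univ_mem contDiff_snd.contDiffOn (fun q hq _ => hq.2.1) ha
  rwa [fderiv_snd] at h1

theorem TZ_finrank (h : GFlow F S A K K₂ Φ) (hdim : Module.finrank ℝ E = Module.finrank ℝ F + n)
    {w : E × E} {L : ℝ} (hw : w ∈ UT S) (hL : NDeg Φ S w L) :
    Module.finrank ℝ (TZ Φ S (w, Φ L w)) + 1 ≤ Module.finrank ℝ (YY Φ S w) := by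
  have hR := retRel h hdim
  have hv : Φ L w ∈ UT S := flow_mem_UT h hw L
  let Λ₀ : (E × E) × ℝ →ₗ[ℝ] E × E :=
    { toFun := fun x => ((0, x.1.1) : E × E) - fderiv ℝ (Φ (-L)) (Φ L w) (0, x.1.2) +
        x.2 • (w.2, A w)
      map_add' := by
        intro x y
        have e1 : ((0, (x + y).1.1) : E × E) = (0, x.1.1) + (0, y.1.1) := by simp
        have e2 : ((0, (x + y).1.2) : E × E) = (0, x.1.2) + (0, y.1.2) := by simp
        have e3 : (x + y).2 = x.2 + y.2 := rfl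
        simp only [e1, e2, e3, map_add, add_smul]
        abel
      map_smul' := by
        intro c x
        have e1 : ((0, (c • x).1.1) : E × E) = c • (0, x.1.1) := by simp
        have e2 : ((0, (c • x).1.2) : E × E) = c • (0, x.1.2) := by simp
        have e3 : (c • x).2 = c * x.2 := rfl
        simp only [e1, e2, e3, map_smul, mul_smul, RingHom.id_apply, smul_add, smul_sub] }
  let Λ₁ : (TZ Φ S (w, Φ L w)) × ℝ →ₗ[ℝ] E × E :=
    Λ₀.comp ((TZ Φ S (w, Φ L w)).subtype.prodMap LinearMap.id)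
  have hΛ : ∀ x, Λ₁ x ∈ YY Φ S w := by
    rintro ⟨⟨ξ, hξ⟩, γ⟩
    have h1 : (((0, ξ.1), fderiv ℝ (Φ L) w (fderiv ℝ (Φ (-L)) (Φ L w) (0, ξ.2))) :
        (E × E) × (E × E)) ∈ ZT (RR Φ S) (w, Φ L w) := by
      rw [flow_right_inv h]
      exact hξ
    have h2 := ((hR.mem_graph hw L).1 h1).2
    exact (YY Φ S w).add_mem h2 ((YY Φ S w).smul_mem γ (X_mem_Y h hdim hw))
  let Λ : (TZ Φ S (w, Φ L w)) × ℝ →ₗ[ℝ] YY Φ S w := Λ₁.codRestrict (YY Φ S w) hΛ
  have hinj : Function.Injective Λ := by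
    rw [injective_iff_map_eq_zero]
    rintro ⟨⟨ξ, hξ⟩, γ⟩ h0
    have h1 : ((0, ξ.1) : E × E) - fderiv ℝ (Φ (-L)) (Φ L w) (0, ξ.2) + γ • (w.2, A w) = 0 :=
      congrArg Subtype.val h0
    have h2 := congrArg (fderiv ℝ (Φ L) w) h1
    rw [map_add, map_sub, flow_right_inv h, map_smul, flow_X h, map_zero] at h2
    have hξU : ((0, ξ.1) : E × E) ∈ ZT (UT S) w := ZTR_fst h (mem_TZ_iff.1 hξ)
    have h3 := theta_flow h hw hξU L
    have h4 : (fderiv ℝ (Φ L) w (0, ξ.1)).1 + γ • (Φ L w).2 = 0 := by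
      have h5 := congrArg Prod.fst h2
      simpa using h5
    have h5 : γ = 0 := by
      have h6 := congrArg (fun e => ⟪(Φ L w).2, e⟫_ℝ) h4
      simp only [inner_add_right, inner_smul_right, inner_zero_right] at h6
      rw [h3, real_inner_self_eq_norm_sq, hv.2, inner_zero_right] at h6
      linarith
    rw [h5, zero_smul, add_zero] at h4
    have h6 : ξ.1 = 0 := hL ξ.1 ((ver_mem_iff h.sub hw).1 hξU).1 h4
    have h7 : ξ.2 = 0 := by
      have e : ((0, ξ.1) : E × E) = 0 := by rw [h6]; rfl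
      have h8 := congrArg Prod.snd h2
      rw [e, h5] at h8
      simpa using h8
    have h8 : ξ = 0 := Prod.ext h6 h7
    subst h8
    subst h5
    rfl
  have h1 := LinearMap.finrank_le_finrank_of_injective hinj
  rwa [Module.finrank_prod, Module.finrank_self] at h1

theorem TZ_line (h : GFlow F S A K K₂ Φ) (hdim : Module.finrank ℝ E = Module.finrank ℝ F + n)
    {w : E × E} {L : ℝ} (hw : w ∈ UT S) (hL : NDeg Φ S w L)
    (h2 : Module.finrank ℝ (YY Φ S w) = 2) {ξ₀ : E × E} (hξ₀ : ξ₀ ∈ TZ Φ S (w, Φ L w))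
    (hne : ξ₀ ≠ 0) : ∀ ξ ∈ TZ Φ S (w, Φ L w), ∃ c : ℝ, ξ = c • ξ₀ := by
  have h1 := TZ_finrank h hdim hw hL
  rw [h2] at h1
  have h3 : (⟨ξ₀, hξ₀⟩ : TZ Φ S (w, Φ L w)) ≠ 0 := fun h0 => hne (congrArg Subtype.val h0)
  have h4 : 0 < Module.finrank ℝ (TZ Φ S (w, Φ L w)) := by
    have : Nontrivial (TZ Φ S (w, Φ L w)) := ⟨⟨_, _, h3⟩⟩
    exact Module.finrank_pos
  have h5 : Module.finrank ℝ (TZ Φ S (w, Φ L w)) = 1 := by omega
  intro ξ hξ
  obtain ⟨c, hc⟩ := (finrank_eq_one_iff_of_nonzero' _ h3).1 h5 ⟨ξ, hξ⟩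
  exact ⟨c, (congrArg Subtype.val hc).symm⟩

end Pool.Agent.H15.S5
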