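import Pool.Agent.H15.S5.Second
import Pool.Agent.H15.S5.TZdim
import Pool.Agent.H91.SF.Main
import Pool.Agent.H77.SN.Sec3B

/-!
# The second order identity at class returns near a given open set
-/

set_option autoImplicit false

open scoped InnerProductSpace Topology ContDiff
open Set Filter

namespace Pool.Agent.H15.S5

open Pool.Agent.H91.GE hiding G1 G11 Nondeg Br exists_br cF smooth_cF Cfg mem_TSet_of_map
open Pool.Agent.H59.LV Pool.Agent.H59.ND Pool.Agent.H59.Zar Pool.Agent.H77.SN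

variable {E F : Type*} [NormedAddCommGroup E] [InnerProductSpace ℝ E] [FiniteDimensional ℝ E]
  [NormedAddCommGroup F] [InnerProductSpace ℝ F] [FiniteDimensional ℝ F]
  {S : Set E} {A : E × E → E} {K K₂ : NNReal} {Φ : ℝ → E × E → E × E} {n m : ℕ}

/-- The base point map. -/
noncomputable def bp : (E × E) × (E × E) →L[ℝ] E × E :=
  (ContinuousLinearMap.fst ℝ E E).prodMap (ContinuousLinearMap.fst ℝ E E)

theorem bp_apply (q : (E × E) × (E × E)) : bp q = (q.1.1, q.2.1) := rfl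

/-- Smoothness of the derivative of the class function. -/
theorem smooth_B {ζ : E × E → E} {W : Set (E × E)} (hW : IsOpen W) (hζ : ContDiffOn ℝ ∞ ζ W) :
    ContDiffOn ℝ ∞ (fun q : (E × E) × (E × E) => fderiv ℝ ζ (q.1.1, q.2.1)) (bp ⁻¹' W) := by
  have h1 : ContDiffOn ℝ ∞ (fderiv ℝ ζ) W := hζ.fderiv_of_isOpen hW (by norm_num)
  have hb : ContDiff ℝ ∞ (fun q : (E × E) × (E × E) => bp q) :=
    ContinuousLinearMap.contDiff (bp (E := E))
  exact ContDiffOn.comp (g := fderiv ℝ ζ) (f := fun q => bp q) h1 hb.contDiffOn fun q hq => hq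

theorem dd_B {D : (E × E) × (E × E) → (E × E) × (E × E)} {ζ : E × E → E} {W : Set (E × E)}
    (hW : IsOpen W) (hζ : ContDiffOn ℝ ∞ ζ W) {q : (E × E) × (E × E)} (hq : q ∈ bp ⁻¹' W)
    (hD1 : (D q).1.1 = 0) (hD2 : (D q).2.1 = 0) :
    dd D (fun q : (E × E) × (E × E) => fderiv ℝ ζ (q.1.1, q.2.1)) q = 0 := by
  have h1 : ContDiffOn ℝ ∞ (fderiv ℝ ζ) W := hζ.fderiv_of_isOpen hW (by norm_num)
  have h2 : DifferentiableAt ℝ (fderiv ℝ ζ) (bp q) := dAt hW h1 hq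
  have h3 : HasFDerivAt (fun q : (E × E) × (E × E) => fderiv ℝ ζ (bp q))
      ((fderiv ℝ (fderiv ℝ ζ) (bp q)).comp bp) q :=
    HasFDerivAt.comp q (g := fderiv ℝ ζ) (f := fun q => bp q) h2.hasFDerivAt
      (ContinuousLinearMap.hasFDerivAt (bp (E := E)))
  have h4 : bp (D q) = 0 := by
    rw [bp_apply, hD1, hD2]; rfl
  show fderiv ℝ (fun q : (E × E) × (E × E) => fderiv ℝ ζ (bp q)) q (D q) = 0
  rw [h3.fderiv]
  show fderiv ℝ (fderiv ℝ ζ) (bp q) (bp (D q)) = 0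
  rw [h4, map_zero]

/-- The test pair at an exact class return. -/
theorem dual_pair (h : GFlow F S A K K₂ Φ) (hdim : Module.finrank ℝ E = Module.finrank ℝ F + n)
    {w : E × E} {L : ℝ} (hw : w ∈ UT S) (hL : NDeg Φ S w L)
    (h2 : Module.finrank ℝ (YY Φ S w) = 2) {f g : E} {r : ℝ} (hr : r ≠ 0) (hf : f ≠ 0)
    (hm : (((0, r • g), (0, f)) : (E × E) × (E × E)) ∈ ZT (RR Φ S) (w, Φ L w)) :
    Dual1 Φ S (w, Φ L w) (⟪f, f⟫_ℝ • g) ((r * ⟪g, g⟫_ℝ) • f) := by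
  have hξ₀ : ((r • g, f) : E × E) ∈ TZ Φ S (w, Φ L w) := hm
  have hne : ((r • g, f) : E × E) ≠ 0 := fun h0 => hf (congrArg Prod.snd h0)
  refine ⟨⟨(⟪f, f⟫_ℝ / r) • (r • g, f), Submodule.smul_mem _ _ hξ₀, ?_⟩,
    ⟨(r * ⟪g, g⟫_ℝ) • (r • g, f), Submodule.smul_mem _ _ hξ₀, rfl⟩, ?_⟩
  · show (⟪f, f⟫_ℝ / r) • (r • g) = _
    rw [smul_smul, div_mul_cancel₀ _ hr]
  · intro ξ hξ
    obtain ⟨c, rfl⟩ := TZ_line h hdim hw hL h2 hξ₀ hne ξ hξ
    show ⟪c • (r • g), ⟪f, f⟫_ℝ • g⟫_ℝ = ⟪c • f, (r * ⟪g, g⟫_ℝ) • f⟫_ℝ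
    rw [real_inner_smul_left, real_inner_smul_left, real_inner_smul_right, real_inner_smul_left,
      real_inner_smul_right]
    ring

/-- The second order identity holds somewhere in every open set which meets the relation. -/
theorem exists_id (h : GFlow F S A K K₂ Φ) (hdim : Module.finrank ℝ E = Module.finrank ℝ F + n)
    (hn : 2 ≤ n) (hsec : Secure S) {O : Set ((E × E) × (E × E))}
    {D : (E × E) × (E × E) → (E × E) × (E × E)} {f g : (E × E) × (E × E) → E}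
    {ρ : (E × E) × (E × E) → ℝ} (hD : Dat (RR Φ S) O D (fun q => q.1.2) (fun q => q.2.2) f g ρ)
    (hD1 : ∀ q ∈ O, (D q).1.1 = 0) (hD2 : ∀ q ∈ O, (D q).2.1 = 0)
    (hY : ∀ q ∈ RR Φ S, q ∈ O → Module.finrank ℝ (YY Φ S q.1) = 2)
    (hρ : ∀ q ∈ RR Φ S, q ∈ O → Tr Φ S q.2 → ρ q ≠ 0) {O' : Set ((E × E) × (E × E))}
    (hO' : IsOpen O') (hs : O' ⊆ O) {q₀ : (E × E) × (E × E)} (hq₀ : q₀ ∈ RR Φ S)
    (hq₀' : q₀ ∈ O') : ∃ q ∈ O', 3 * dd D ρ q ^ 2 = ρ q * Stf D f g ρ q := by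
  let N := EuclideanSpace ℝ (Fin n)
  have hN1 : Module.finrank ℝ N = n := finrank_euclideanSpace_fin
  have hdN : Module.finrank ℝ E = Module.finrank ℝ F + Module.finrank ℝ N := by rw [hN1, hdim]
  obtain ⟨𝒪, ζ, ζ₂, ν, ν₂, hJ, hsub, q₁, hq₁, hq₁R⟩ :=
    Pool.Agent.H91.SF.exists_JCD (N := N) hdN (by rw [hN1]; omega) h hsec hq₀ (hO'.mem_nhds hq₀')
  have hq₁R' : q₁ ∈ RR Φ S := hq₁R
  obtain ⟨W, hW, hqW, hζ, -⟩ := hJ.gd₁ q₁ hq₁ hq₁R
  set O₂ : Set ((E × E) × (E × E)) := 𝒪 ∩ bp ⁻¹' W with hO₂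
  have hO₂o : IsOpen O₂ := hJ.isOpen.inter (hW.preimage bp.continuous)
  have hO₂s : O₂ ⊆ O := fun q hq => hs (hsub hq.1)
  have hD' := hD.mono hO₂o hO₂s
  set Cl : Set ((E × E) × (E × E)) := {q | q ∈ RR Φ S ∧ ∃ L, q.2 = Φ L q.1 ∧ Cls Φ S ζ ν q.1 L}
    with hCl
  have hlin1 : ∀ q ∈ O, (D q).1.2 = ρ q • g q := by
    intro q hq
    have h1 := hD.dw q hq
    have h2 : dd D (fun q : (E × E) × (E × E) => q.1.2) q = (D q).1.2 := by
      have h3 : HasFDerivAt (fun q : (E × E) × (E × E) => q.1.2)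
          ((ContinuousLinearMap.snd ℝ E E).comp (ContinuousLinearMap.fst ℝ (E × E) (E × E))) q :=
        ((ContinuousLinearMap.snd ℝ E E).comp
          (ContinuousLinearMap.fst ℝ (E × E) (E × E))).hasFDerivAt
      show fderiv ℝ (fun q : (E × E) × (E × E) => q.1.2) q (D q) = _
      rw [h3.fderiv]; rfl
    rw [← h2, h1]
  have hlin2 : ∀ q ∈ O, (D q).2.2 = f q := by
    intro q hq
    have h1 := hD.dv q hq
    have h2 : dd D (fun q : (E × E) × (E × E) => q.2.2) q = (D q).2.2 := by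
      have h3 : HasFDerivAt (fun q : (E × E) × (E × E) => q.2.2)
          ((ContinuousLinearMap.snd ℝ E E).comp (ContinuousLinearMap.snd ℝ (E × E) (E × E))) q :=
        ((ContinuousLinearMap.snd ℝ E E).comp
          (ContinuousLinearMap.snd ℝ (E × E) (E × E))).hasFDerivAt
      show fderiv ℝ (fun q : (E × E) × (E × E) => q.2.2) q (D q) = _
      rw [h3.fderiv]; rfl
    rw [← h2, h1]
  have hc : ClD (RR Φ S) O₂ D (fun q => q.1.2) (fun q => q.2.2) f g ρ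
      (fun q => fderiv ℝ ζ (q.1.1, q.2.1)) ν Cl := by
    refine ⟨(smooth_B hW hζ).mono inter_subset_right, hJ.smooth₁.mono inter_subset_left,
      fun q hq hqO => dd_B hW hζ hqO.2 (hD1 q (hO₂s hqO)) (hD2 q (hO₂s hqO)),
      fun q hq hqO => hJ.c1₁ q hqO.1 hq, fun q hq hqO => hJ.ne₁ q hqO.1 hq, fun q hq => hq.1,
      ?_, ?_⟩
    · intro q hq hqO
      rw [mem_closure_iff_nhds]
      intro T hT
      obtain ⟨T', hT', hT'o, hqT'⟩ := mem_nhds_iff.1 (inter_mem hT (hO₂o.mem_nhds hqO))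
      obtain ⟨q', hq'T, hq'O, L, hL, hcl, -⟩ :=
        mem_closure_iff.1 (hJ.dense q hqO.1 hq) T' hT'o hqT'
      refine ⟨q', (hT' hq'T).1, ⟨?_, L, hL, hcl⟩, (hT' hq'T).2⟩
      have hqe : q' = (q'.1, Φ L q'.1) := Prod.ext rfl hL
      rw [hqe]
      exact (retRel h hdim).mem_flow hcl.mem L
    · rintro q ⟨hqR, L, hL, hcl⟩ hqO a b hab
      have hqe : q = (q.1, Φ L q.1) := Prod.ext rfl hL
      have hqO' := hO₂s hqO
      have hr : ρ q ≠ 0 := hρ q hqR hqO' (by rw [hL]; exact hcl.tr')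
      have hm : (((0, ρ q • g q), (0, f q)) : (E × E) × (E × E)) ∈
          ZT (RR Φ S) (q.1, Φ L q.1) := by
        have h1 := hD.tan q hqR hqO'
        have h2 : D q = ((0, ρ q • g q), (0, f q)) :=
          Prod.ext (Prod.ext (hD1 q hqO') (hlin1 q hqO')) (Prod.ext (hD2 q hqO') (hlin2 q hqO'))
        have h4 : ZT (RR Φ S) q = ZT (RR Φ S) (q.1, Φ L q.1) := by rw [← hqe]
        rw [h2, h4] at h1
        exact h1
      have h3 := dual1_TPr h hdim hcl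
        (dual_pair h hdim hcl.mem hcl.nd (hY q hqR hqO') hr (hD.f0 q hqO') hm) a b
        (by rw [← hL]; exact hab)
      rw [← hqe, real_inner_smul_right, real_inner_smul_right] at h3
      linear_combination h3
  exact ⟨q₁, hsub hq₁, hc.main hD' q₁ hq₁R' ⟨hq₁, hqW⟩⟩

end Pool.Agent.H15.S5
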