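import Pool.Agent.H59.Zar.Basic

/-!
# Smooth sections with a prescribed base part
-/

set_option autoImplicit false

open scoped InnerProductSpace Topology ContDiff
open Set Filter

namespace Pool.Agent.H15.S5

variable {V N : Type*} [NormedAddCommGroup V] [NormedSpace ℝ V] [FiniteDimensional ℝ V]
  [NormedAddCommGroup N] [NormedSpace ℝ N] [FiniteDimensional ℝ N]

/-- Smooth sections of the family `T` with a prescribed image under `bs`. -/
theorem exists_section {R : Set V} {p : V} {T : V → Submodule ℝ V} {P : V → V →L[ℝ] V}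
    {O : Set V} (hO : IsOpen O) (hp : p ∈ O) (hP : ContDiffOn ℝ ∞ P O)
    (hPT : ∀ q ∈ R, q ∈ O → (∀ a, P q a ∈ T q) ∧ ∀ a ∈ T q, P q a = a) (hpR : p ∈ R)
    (bs : V →L[ℝ] N) (hs : ∀ n : N, ∃ a ∈ T p, bs a = n) {u : V → N}
    (hu : ContDiffOn ℝ ∞ u O) :
    ∃ (O' : Set V) (c : V → V), IsOpen O' ∧ p ∈ O' ∧ O' ⊆ O ∧ ContDiffOn ℝ ∞ c O' ∧
      (∀ q ∈ O', bs (c q) = u q) ∧ ∀ q ∈ R, q ∈ O' → c q ∈ T q := by
  have hcN : CompleteSpace N := FiniteDimensional.complete ℝ N
  have hsurj : LinearMap.range (bs.toLinearMap.domRestrict (T p)) = ⊤ := by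
    rw [LinearMap.range_eq_top]
    intro n
    obtain ⟨a, ha, hn⟩ := hs n
    exact ⟨⟨a, ha⟩, hn⟩
  obtain ⟨g, hg⟩ := LinearMap.exists_rightInverse_of_surjective _ hsurj
  set s : N →L[ℝ] V := LinearMap.toContinuousLinearMap ((T p).subtype.comp g) with hsdef
  have hsT : ∀ n, s n ∈ T p := fun n => (g n).2
  have hbs : ∀ n, bs (s n) = n := fun n => congrArg (fun L : N →ₗ[ℝ] N => L n) hg
  set M : V → N →L[ℝ] N := fun q => (bs.comp (P q)).comp s with hM
  have hMs : ContDiffOn ℝ ∞ M O := (contDiffOn_const.clm_comp hP).clm_comp contDiffOn_const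
  have hMp : M p = 1 := by
    ext n
    show bs (P p (s n)) = n
    rw [(hPT p hpR hp).2 _ (hsT n), hbs]
  refine ⟨O ∩ M ⁻¹' {L | IsUnit L}, fun q => P q (s (Ring.inverse (M q) (u q))),
    hMs.continuousOn.isOpen_inter_preimage hO Units.isOpen, ⟨hp, ?_⟩, inter_subset_left, ?_,
    ?_, ?_⟩
  · show IsUnit (M p)
    rw [hMp]; exact isUnit_one
  · have h1 : ContDiffOn ℝ ∞ (fun q => Ring.inverse (M q)) (O ∩ M ⁻¹' {L | IsUnit L}) := by
      rintro q ⟨hqO, x, hx⟩
      have h2 : ContDiffAt ℝ ∞ M q := (hMs q hqO).contDiffAt (hO.mem_nhds hqO)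
      have h3 : ContDiffAt ℝ ∞ Ring.inverse (M q) := by
        rw [← hx]; exact contDiffAt_ringInverse ℝ x
      exact (h3.comp q h2).contDiffWithinAt
    exact (hP.mono inter_subset_left).clm_apply (contDiffOn_const.clm_apply
      (h1.clm_apply (hu.mono inter_subset_left)))
  · rintro q ⟨hqO, hq⟩
    have h1 : M q * Ring.inverse (M q) = 1 := Ring.mul_inverse_cancel _ hq
    have h2 : (M q * Ring.inverse (M q)) (u q) = u q := by rw [h1]; rfl
    exact h2
  · rintro q hqR ⟨hqO, -⟩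
    exact (hPT q hqR hqO).1 _

end Pool.Agent.H15.S5
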