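import Pool.Agent.H15.S5.ClassId
import Pool.Agent.H15.S5.Sect
import Pool.Agent.H59.Zar.RelNear
import Pool.Agent.H77.SN.Sec5A
import Pool.Agent.H77.SN.Short
import Pool.Agent.H77.SN.Sec3C

/-!
# Section 5.2 for `m = 2`
-/

set_option autoImplicit false

open scoped InnerProductSpace Topology ContDiff
open Set Filter

namespace Pool.Agent.H15.S5

open Pool.Agent.H91.GE hiding G1 G11 Nondeg Br exists_br cF smooth_cF Cfg mem_TSet_of_map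
open Pool.Agent.H59.LV Pool.Agent.H59.ND Pool.Agent.H59.Zar Pool.Agent.H77.SN

variable {E F : Type*} [NormedAddCommGroup E] [InnerProductSpace ℝ E] [FiniteDimensional ℝ E]
  [NormedAddCommGroup F] [InnerProductSpace ℝ F] [FiniteDimensional ℝ F]
  {S : Set E} {A : E × E → E} {K K₂ : NNReal} {Φ : ℝ → E × E → E × E} {n m : ℕ}

/-- Base coordinates near a pair of points of `S`. -/
theorem exists_bs (h : GFlow F S A K K₂ Φ) (hdim : Module.finrank ℝ E = Module.finrank ℝ F + n)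
    {x : E} (hx : x ∈ S) :
    ∃ (κ : E →L[ℝ] EuclideanSpace ℝ (Fin n)) (W : Set E), IsOpen W ∧ x ∈ W ∧
      (∀ y ∈ S, y ∈ W → ∀ v ∈ ZT S y, ∀ v' ∈ ZT S y, κ v = κ v' → v = v') ∧
      ∀ b, ∃ v ∈ ZT S x, κ v = b := by
  obtain ⟨U, hU, f, hf⟩ := h.sub x hx
  have hdN : Module.finrank ℝ E = Module.finrank ℝ F +
      Module.finrank ℝ (EuclideanSpace ℝ (Fin n)) := by rw [finrank_euclideanSpace_fin, hdim]
  obtain ⟨Ω, ψ, κ, W, hp, hxW⟩ := exists_patch hdN hf hU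
  refine ⟨κ, W, hp.V_open, hxW, ?_, ?_⟩
  · intro y hy hyW v hv v' hv' he
    have h1 := (hp.of_TSet hyW ((mem_TS h.sub hy).1 hv)).2.2
    have h2 := (hp.of_TSet hyW ((mem_TS h.sub hy).1 hv')).2.2
    rw [← h1, ← h2, he]
  · intro b
    obtain ⟨h1, h2⟩ := hp.right x hx hxW
    refine ⟨fderiv ℝ ψ (κ x) b, ?_, hp.κ_fderiv h1 b⟩
    rw [mem_TS h.sub hx]
    have h3 := hp.mem_TSet h.sub h1 b
    rwa [h2] at h3

/-- The vertical multiple of the field `β`. -/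
noncomputable def bet (Q : E × E → (E × E) →L[ℝ] (E × E)) (A : E × E → E) (k w : E × E) : E × E :=
  Q w k - ⟪(Q w k).1, w.2⟫_ℝ • (w.2, A w)

theorem bet_smooth (h : GFlow F S A K K₂ Φ) {Q : E × E → (E × E) →L[ℝ] (E × E)} {O : Set (E × E)}
    (hQ : ContDiffOn ℝ ∞ Q O) (k : E × E) : ContDiffOn ℝ ∞ (bet Q A k) O := by
  have h1 : ContDiffOn ℝ ∞ (fun w => Q w k) O := hQ.clm_apply contDiffOn_const
  have h2 : ContDiffOn ℝ ∞ (fun w => (Q w k).1) O := contDiff_fst.comp_contDiffOn h1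
  have h3 : ContDiffOn ℝ ∞ (fun w : E × E => w.2) O := contDiff_snd.contDiffOn
  have h4 : ContDiffOn ℝ ∞ (fun w : E × E => ((w.2, A w) : E × E)) O :=
    h3.prodMk h.field.smooth.contDiffOn
  exact h1.sub ((h2.inner ℝ h3).smul h4)

theorem tanv_smooth (h : GFlow F S A K K₂ Φ) {b : E × E → E × E} {O : Set (E × E)}
    (hb : ContDiffOn ℝ ∞ b O) : ContDiffOn ℝ ∞ (fun w => tanv A w (b w)) O := by
  have h1 : ContDiffOn ℝ ∞ (fderiv ℝ A) O :=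
    (h.field.smooth.fderiv_right (m := ∞) (by norm_num)).contDiffOn
  have h2 : ContDiffOn ℝ ∞ (fun w => (b w).1) O := contDiff_fst.comp_contDiffOn hb
  have h3 : ContDiffOn ℝ ∞ (fun w => (b w).2) O := contDiff_snd.comp_contDiffOn hb
  have h4 : ContDiffOn ℝ ∞ (fun w => (((0 : E), (b w).1) : E × E)) O := contDiffOn_const.prodMk h2
  exact h3.sub (contDiffOn_const.smul (h1.clm_apply h4))

/-- **(5.2), `m = 2`.** -/
theorem dvert2 (h : GFlow F S A K K₂ Φ) (hdim : Module.finrank ℝ E = Module.finrank ℝ F + n)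
    (hn : 2 ≤ n) (hsec : Secure S) {ρ : E × E → ℝ} {O : Set (E × E)} (hr : Rho A Φ S 2 ρ O)
    {w₁ : E × E} (hw : w₁ ∈ O) (hU : w₁ ∈ UT S) (h0 : ρ w₁ = 0) {k : E × E}
    (hk : k ∈ YY Φ S w₁) (hk0 : k.1 = 0) : fderiv ℝ ρ w₁ k = 0 := by
  rcases eq_or_ne k 0 with rfl | hkne
  · exact map_zero _
  have hk2 : k.2 ≠ 0 := fun h1 => hkne (Prod.ext hk0 h1)
  have hR := retRel h hdim
  have hgood₁ : w₁ ∈ OO Φ S 2 := hr.good w₁ hw hU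
  -- the time `t` and the point `w₀`
  obtain ⟨δ, hδ, hsh⟩ := ndeg_short h w₁
  have hcont : Tendsto (fun t : ℝ => Φ (-t) w₁) (𝓝[>] 0) (𝓝 w₁) := by
    have h1 : Continuous fun t : ℝ => Φ (-t) w₁ :=
      (h.flow.continuous_left w₁).comp continuous_neg
    have h2 := h1.tendsto 0
    rw [neg_zero, h.flow.zero] at h2
    exact h2.mono_left nhdsWithin_le_nhds
  have hIoo : ∀ᶠ t in 𝓝[>] (0 : ℝ), t ∈ Ioo 0 δ := Ioo_mem_nhdsGT hδ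
  obtain ⟨t, ⟨ht0, htδ⟩, htw⟩ := (hIoo.and (hcont.eventually hsh)).exists
  set w₀ : E × E := Φ (-t) w₁ with hw₀
  have hflow : Φ t w₀ = w₁ := by
    have h1 := flow_inv h (-t) w₁
    rwa [neg_neg] at h1
  have hU₀ : w₀ ∈ UT S := flow_mem_UT h hU (-t)
  have hnd : NDeg Φ S w₀ t := by
    intro ξ _ h1
    have h2 := htw t ⟨ht0, htδ⟩ ξ
    rw [h1, norm_zero] at h2
    have h3 : ‖ξ‖ ≤ 0 := by
      by_contra hc
      have : 0 < (1 / 2 : ℝ) * t * ‖ξ‖ := by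
        have := not_le.1 hc
        positivity
      linarith
    exact norm_le_zero_iff.1 h3
  have hg₀ : w₀ ∈ GoodPt (UT S) (RR Φ S) := hR.good_flow hgood₁.1 (-t)
  have hfin₀ : Module.finrank ℝ (YY Φ S w₀) = 2 := by
    have h1 := hR.finrank_flow_Y hU (-t)
    exact h1.trans hgood₁.2
  set p₀ : (E × E) × (E × E) := (w₀, w₁) with hp₀
  have hp₀R : p₀ ∈ RR Φ S := by
    have h1 := hR.mem_flow hU₀ t
    rwa [hflow] at h1
  -- projections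
  obtain ⟨P, ⟨OP, hOP, hPs⟩, hPev⟩ := hR.exists_projR hg₀ t
  have hnear := hR.near hg₀ t
  rw [hflow] at hOP hPev hnear
  obtain ⟨Q, ⟨OQ, hOQ, hQs⟩, hQev⟩ := hR.exists_projY hgood₁.1
  -- an open set of good vectors
  obtain ⟨Ω₁, hΩ₁o, hΩ₁w, hΩ₁⟩ : ∃ Ω₁ : Set (E × E), IsOpen Ω₁ ∧ w₁ ∈ Ω₁ ∧ ∀ w ∈ Ω₁, w ∈ OQ ∧
      w ∈ O ∧ (w ∈ UT S → (∀ a, Q w a ∈ Y (RR Φ S) w) ∧ ∀ a ∈ Y (RR Φ S) w, Q w a = a) := by
    have h1 : ∀ᶠ w in 𝓝 w₁, w ∈ OQ ∧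
      w ∈ O ∧ (w ∈ UT S → (∀ a, Q w a ∈ Y (RR Φ S) w) ∧ ∀ a ∈ Y (RR Φ S) w, Q w a = a) :=
      (show ∀ᶠ w in 𝓝 w₁, w ∈ OQ from hOQ).and
        ((show ∀ᶠ w in 𝓝 w₁, w ∈ O from hr.isOpen.mem_nhds hw).and
          (eventually_nhdsWithin_iff.1 hQev))
    obtain ⟨V, hV, hVo, hwV⟩ := eventually_nhds_iff.1 h1
    exact ⟨V, hVo, hwV, hV⟩
  have hQs' : ContDiffOn ℝ ∞ Q Ω₁ := hQs.mono fun w hw => (hΩ₁ w hw).1
  have hβs : ContDiffOn ℝ ∞ (bet Q A k) Ω₁ := bet_smooth h hQs' k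
  have hβY : ∀ w ∈ Ω₁, w ∈ UT S → bet Q A k w ∈ Y (RR Φ S) w := by
    intro w hw hwU
    exact Submodule.sub_mem _ (((hΩ₁ w hw).2.2 hwU).1 k)
      (Submodule.smul_mem _ _ (X_mem_Y h hdim hwU))
  have hββ : ∀ w ∈ Ω₁, w ∈ UT S → (bet Q A k w).1 = ρ w • tanv A w (bet Q A k w) := by
    intro w hw hwU
    have h1 := hr.eq w (hΩ₁ w hw).2.1 hwU _ (hβY w hw hwU)
    have h2 : ⟪(bet Q A k w).1, w.2⟫_ℝ = 0 := by
      show ⟪(Q w k).1 - ⟪(Q w k).1, w.2⟫_ℝ • w.2, w.2⟫_ℝ = 0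
      rw [inner_sub_left, real_inner_smul_left, real_inner_self_eq_norm_sq, hwU.2]
      ring
    rwa [h2, zero_smul, sub_zero] at h1
  have hβ₁ : bet Q A k w₁ = k := by
    have h1 : Q w₁ k = k := ((hΩ₁ w₁ hΩ₁w).2.2 hU).2 k hk
    show Q w₁ k - ⟪(Q w₁ k).1, w₁.2⟫_ℝ • (w₁.2, A w₁) = k
    rw [h1, hk0, inner_zero_left, zero_smul, sub_zero]
  have hlT : ∀ w ∈ Ω₁, w ∈ UT S → tanv A w (bet Q A k w) ∈ ZT S w.1 := fun w hw hwU =>
    tan_part h hwU (hR.Y_le hwU (hβY w hw hwU))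
  have hl₁ : tanv A w₁ (bet Q A k w₁) = k.2 := by
    rw [hβ₁]
    have e : k = (0, k.2) := Prod.ext hk0 rfl
    rw [e, tanv_vert]
  -- base coordinates
  obtain ⟨κ₁, W₁, hW₁o, hW₁, hinj₁, hsur₁⟩ := exists_bs h hdim (fst_mem_TSet hU₀.1)
  obtain ⟨κ₂, W₂, hW₂o, hW₂, hinj₂, hsur₂⟩ := exists_bs h hdim (fst_mem_TSet hU.1)
  let bs : (E × E) × (E × E) →L[ℝ] EuclideanSpace ℝ (Fin n) × EuclideanSpace ℝ (Fin n) :=
    (κ₁.comp (ContinuousLinearMap.fst ℝ E E)).prodMap (κ₂.comp (ContinuousLinearMap.fst ℝ E E))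
  have hbs : ∀ b, ∃ a ∈ ZT (RR Φ S) p₀, bs a = b := by
    rintro ⟨b₁, b₂⟩
    obtain ⟨v₁, hv₁, rfl⟩ := hsur₁ b₁
    obtain ⟨v₂, hv₂, rfl⟩ := hsur₂ b₂
    obtain ⟨a', b', hab⟩ := exists_base h hdim hU₀ ht0.ne' hnd hv₁ (b := v₂) (by
      rw [hflow]; exact hv₂)
    rw [hflow] at hab
    exact ⟨_, hab, rfl⟩
  -- an open set for the section
  obtain ⟨U₁, hU₁o, hU₁p, hU₁⟩ : ∃ U₁ : Set ((E × E) × (E × E)), IsOpen U₁ ∧ p₀ ∈ U₁ ∧
      ∀ q ∈ U₁, q ∈ OP ∧ q.2 ∈ Ω₁ ∧ q.1.1 ∈ W₁ ∧ q.2.1 ∈ W₂ ∧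
        (q ∈ RR Φ S → ((∀ a, P q a ∈ ZT (RR Φ S) q) ∧ ∀ a ∈ ZT (RR Φ S) q, P q a = a) ∧
          (∀ b, ((0 : E × E), b) ∈ ZT (RR Φ S) q ↔ b ∈ Y (RR Φ S) q.2) ∧
          Module.finrank ℝ (YY Φ S q.1) = 2) := by
    have e1 : ∀ᶠ q in 𝓝 p₀, q.2 ∈ Ω₁ :=
      continuous_snd.continuousAt.eventually (hΩ₁o.mem_nhds hΩ₁w)
    have e2 : ∀ᶠ q : (E × E) × (E × E) in 𝓝 p₀, q.1.1 ∈ W₁ :=
      (continuous_fst.comp continuous_fst).continuousAt.eventually (hW₁o.mem_nhds hW₁)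
    have e3 : ∀ᶠ q : (E × E) × (E × E) in 𝓝 p₀, q.2.1 ∈ W₂ :=
      (continuous_fst.comp continuous_snd).continuousAt.eventually (hW₂o.mem_nhds hW₂)
    have e4 : ∀ᶠ q : (E × E) × (E × E) in 𝓝 p₀, q.1 ∈ UT S →
        Module.finrank ℝ (YY Φ S q.1) = 2 := by
      have h1 : ∀ᶠ w in 𝓝 w₀, w ∈ UT S → Module.finrank ℝ (YY Φ S w) = 2 := by
        refine (eventually_nhdsWithin_iff.1 hg₀.2).mono fun w hw hwU => ?_
        exact (hw hwU).trans hfin₀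
      have h2 : Tendsto (Prod.fst : (E × E) × (E × E) → E × E) (𝓝 p₀) (𝓝 w₀) :=
        continuous_fst.tendsto p₀
      exact h2.eventually h1
    have h1 : ∀ᶠ q in 𝓝 p₀, q ∈ OP ∧ q.2 ∈ Ω₁ ∧ q.1.1 ∈ W₁ ∧ q.2.1 ∈ W₂ ∧
        (q ∈ RR Φ S → ((∀ a, P q a ∈ ZT (RR Φ S) q) ∧ ∀ a ∈ ZT (RR Φ S) q, P q a = a) ∧
          (∀ b, ((0 : E × E), b) ∈ ZT (RR Φ S) q ↔ b ∈ Y (RR Φ S) q.2) ∧
          Module.finrank ℝ (YY Φ S q.1) = 2) := by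
      filter_upwards [hOP, e1, e2, e3, e4, eventually_nhdsWithin_iff.1 hPev,
        eventually_nhdsWithin_iff.1 hnear] with q g1 g2 g3 g4 g5 g6 g7
      exact ⟨g1, g2, g3, g4, fun hq => ⟨g6 hq, (g7 hq).1, g5 hq.1⟩⟩
    obtain ⟨V, hV, hVo, hwV⟩ := eventually_nhds_iff.1 h1
    exact ⟨V, hVo, hwV, hV⟩
  have hsnd : ContDiffOn ℝ ∞ (Prod.snd : (E × E) × (E × E) → E × E) U₁ := contDiff_snd.contDiffOn
  have hmaps : MapsTo (Prod.snd : (E × E) × (E × E) → E × E) U₁ Ω₁ := fun q hq => (hU₁ q hq).2.1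
  have hls : ContDiffOn ℝ ∞ (fun q : (E × E) × (E × E) => tanv A q.2 (bet Q A k q.2)) U₁ :=
    ContDiffOn.comp (g := fun w => tanv A w (bet Q A k w)) (tanv_smooth h hβs) hsnd hmaps
  obtain ⟨U₂, c, hU₂o, hU₂p, hU₂s, hcs, hcb, hcT⟩ := exists_section (T := fun q => ZT (RR Φ S) q)
    hU₁o hU₁p (hPs.mono fun q hq => (hU₁ q hq).1) (fun q hq hqU => ((hU₁ q hqU).2.2.2.2 hq).1)
    hp₀R bs hbs (u := fun q => ((0 : EuclideanSpace ℝ (Fin n)),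
      κ₂ (tanv A q.2 (bet Q A k q.2))))
    (contDiffOn_const.prodMk (κ₂.contDiff.comp_contDiffOn hls))
  have hc1 : ∀ q ∈ RR Φ S, q ∈ U₂ → (c q).1.1 = 0 := by
    intro q hq hqU
    have h1 := congrArg Prod.fst (hcb q hqU)
    have h2 : κ₁ (c q).1.1 = κ₁ 0 := by
      rw [map_zero]; exact h1
    refine hinj₁ q.1.1 (fst_mem_TSet hq.1.1) (hU₁ q (hU₂s hqU)).2.2.1 _ ?_ _
      (Submodule.zero_mem _) h2
    exact fst_mem_TS hq.1 (ZTR_fst h (hcT q hq hqU))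
  have hc2 : ∀ q ∈ RR Φ S, q ∈ U₂ → (c q).2.1 = tanv A q.2 (bet Q A k q.2) := by
    intro q hq hqU
    have h1 := congrArg Prod.snd (hcb q hqU)
    have hq1 := hU₁ q (hU₂s hqU)
    refine hinj₂ q.2.1 (fst_mem_TSet hq.2.1.1) hq1.2.2.2.1 _ ?_ _ ?_ h1
    · exact fst_mem_TS hq.2.1 (ZTR_snd h (hcT q hq hqU))
    · exact hlT q.2 hq1.2.1 hq.2.1
  -- the fields
  set r : (E × E) × (E × E) → ℝ := fun q => ρ q.2 with hrdef
  set g : (E × E) × (E × E) → E := fun q => -(c q).1.2 with hg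
  set f : (E × E) × (E × E) → E := fun q => (bet Q A k q.2).2 - r q • (c q).2.2 with hf
  set D : (E × E) × (E × E) → (E × E) × (E × E) := fun q => ((0, r q • g q), (0, f q)) with hD
  have hrs : ContDiffOn ℝ ∞ r U₂ := ContDiffOn.comp (g := ρ) hr.smooth
    contDiff_snd.contDiffOn fun q hq => (hΩ₁ q.2 (hU₁ q (hU₂s hq)).2.1).2.1
  have hgs : ContDiffOn ℝ ∞ g U₂ :=
    (contDiff_snd.comp_contDiffOn (contDiff_fst.comp_contDiffOn hcs)).neg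
  have hfs : ContDiffOn ℝ ∞ f U₂ := by
    have h1 : ContDiffOn ℝ ∞ (fun q : (E × E) × (E × E) => bet Q A k q.2) U₂ :=
      (ContDiffOn.comp (g := bet Q A k) hβs hsnd hmaps).mono hU₂s
    have h2 : ContDiffOn ℝ ∞ (fun q => (c q).2.2) U₂ :=
      contDiff_snd.comp_contDiffOn (contDiff_snd.comp_contDiffOn hcs)
    exact (contDiff_snd.comp_contDiffOn h1).sub (hrs.smul h2)
  have hDs : ContDiffOn ℝ ∞ D U₂ :=
    (contDiffOn_const.prodMk (hrs.smul hgs)).prodMk (contDiffOn_const.prodMk hfs)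
  have hDT : ∀ q ∈ RR Φ S, q ∈ U₂ → D q ∈ ZT (RR Φ S) q := by
    intro q hq hqU
    have hq1 := hU₁ q (hU₂s hqU)
    have h1 : ((0 : E × E), bet Q A k q.2) ∈ ZT (RR Φ S) q :=
      ((hq1.2.2.2.2 hq).2.1 _).2 (hβY q.2 hq1.2.1 hq.2.1)
    have h2 : D q = ((0 : E × E), bet Q A k q.2) - r q • c q := by
      refine Prod.ext (Prod.ext ?_ ?_) (Prod.ext ?_ ?_)
      · show (0 : E) = 0 - r q • (c q).1.1
        rw [hc1 q hq hqU, smul_zero, sub_zero]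
      · show r q • -(c q).1.2 = 0 - r q • (c q).1.2
        rw [smul_neg, zero_sub]
      · show (0 : E) = (bet Q A k q.2).1 - r q • (c q).2.1
        rw [hc2 q hq hqU, hββ q.2 hq1.2.1 hq.2.1, sub_self]
      · rfl
    rw [h2]
    exact Submodule.sub_mem _ h1 (Submodule.smul_mem _ _ (hcT q hq hqU))
  have hfp : f p₀ = k.2 := by
    show (bet Q A k w₁).2 - ρ w₁ • (c p₀).2.2 = k.2
    rw [hβ₁, h0, zero_smul, sub_zero]
  have hgp : g p₀ ≠ 0 := by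
    intro h1
    have h2 : (c p₀).1.2 = 0 := neg_eq_zero.1 h1
    have h3 : c p₀ = ((0 : E × E), (c p₀).2) := Prod.ext (Prod.ext (hc1 p₀ hp₀R hU₂p) h2) rfl
    have h4 := hcT p₀ hp₀R hU₂p
    rw [h3] at h4
    have h5 : (c p₀).2 ∈ Y (RR Φ S) w₁ := ((hU₁ p₀ hU₁p).2.2.2.2 hp₀R).2.1 _ |>.1 h4
    have h6 := hr.vert hw hU h0 h5
    have h7 : (c p₀).2.1 = k.2 := by rw [hc2 p₀ hp₀R hU₂p]; exact hl₁
    rw [h7] at h6
    have h8 : ⟪w₁.2, k.2⟫_ℝ = 0 := inner_snd (hR.Y_le hU hk)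
    rw [real_inner_comm, h8, zero_smul] at h6
    exact hk2 h6
  -- the final open set
  obtain ⟨U₃, hU₃o, hU₃p, hU₃⟩ : ∃ U₃ : Set ((E × E) × (E × E)), IsOpen U₃ ∧ p₀ ∈ U₃ ∧
      ∀ q ∈ U₃, q ∈ U₂ ∧ f q ≠ 0 ∧ g q ≠ 0 := by
    have hfc : ContinuousAt f p₀ := ((hfs p₀ hU₂p).contDiffAt (hU₂o.mem_nhds hU₂p)).continuousAt
    have hgc : ContinuousAt g p₀ := ((hgs p₀ hU₂p).contDiffAt (hU₂o.mem_nhds hU₂p)).continuousAt
    have h1 : ∀ᶠ q in 𝓝 p₀, q ∈ U₂ ∧ f q ≠ 0 ∧ g q ≠ 0 :=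
      (show ∀ᶠ q in 𝓝 p₀, q ∈ U₂ from hU₂o.mem_nhds hU₂p).and
        ((hfc.eventually_ne (by rw [hfp]; exact hk2)).and (hgc.eventually_ne hgp))
    obtain ⟨V, hV, hVo, hwV⟩ := eventually_nhds_iff.1 h1
    exact ⟨V, hVo, hwV, hV⟩
  have hU₃s : U₃ ⊆ U₂ := fun q hq => (hU₃ q hq).1
  have hdat : Dat (RR Φ S) U₃ D (fun q => q.1.2) (fun q => q.2.2) f g r := by
    refine ⟨hU₃o, hDs.mono hU₃s, (contDiff_snd.comp contDiff_fst).contDiffOn,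
      (contDiff_snd.comp contDiff_snd).contDiffOn, hfs.mono hU₃s, hgs.mono hU₃s,
      hrs.mono hU₃s, fun q hq hqU => hDT q hq (hU₃s hqU), ?_, ?_, fun q hq => (hU₃ q hq).2.1,
      fun q hq => (hU₃ q hq).2.2, ?_⟩
    · intro q _
      have h3 : HasFDerivAt (fun q : (E × E) × (E × E) => q.1.2)
          ((ContinuousLinearMap.snd ℝ E E).comp (ContinuousLinearMap.fst ℝ (E × E) (E × E))) q :=
        ((ContinuousLinearMap.snd ℝ E E).comp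
          (ContinuousLinearMap.fst ℝ (E × E) (E × E))).hasFDerivAt
      show fderiv ℝ (fun q : (E × E) × (E × E) => q.1.2) q (D q) = _
      rw [h3.fderiv]; rfl
    · intro q _
      have h3 : HasFDerivAt (fun q : (E × E) × (E × E) => q.2.2)
          ((ContinuousLinearMap.snd ℝ E E).comp (ContinuousLinearMap.snd ℝ (E × E) (E × E))) q :=
        ((ContinuousLinearMap.snd ℝ E E).comp
          (ContinuousLinearMap.snd ℝ (E × E) (E × E))).hasFDerivAt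
      show fderiv ℝ (fun q : (E × E) × (E × E) => q.2.2) q (D q) = _
      rw [h3.fderiv]; rfl
    · intro q hq hqU
      exact inner_snd (ZTR_snd h (hDT q hq (hU₃s hqU)))
  have hρtr : ∀ q ∈ RR Φ S, q ∈ U₃ → Tr Φ S q.2 → r q ≠ 0 := by
    intro q hq hqU htr h1
    have hq1 := hU₁ q (hU₂s (hU₃s hqU))
    have h2 : (bet Q A k q.2).1 = 0 := by
      rw [hββ q.2 hq1.2.1 hq.2.1]
      show r q • _ = 0
      rw [h1, zero_smul]
    have h3 : bet Q A k q.2 = 0 := htr _ (hβY q.2 hq1.2.1 hq.2.1) h2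
    refine (hU₃ q hqU).2.1 ?_
    show (bet Q A k q.2).2 - r q • (c q).2.2 = 0
    rw [h3, h1, zero_smul, sub_zero]; rfl
  -- the identity at `p₀`
  have hF1 : ContDiffOn ℝ ∞ (dd D r) U₃ := dd_smooth hU₃o (hDs.mono hU₃s) (hrs.mono hU₃s)
  have hF2 : ContinuousAt (fun q => 3 * dd D r q ^ 2 - r q * Stf D f g r q) p₀ := by
    have h1 : ContinuousAt (dd D r) p₀ :=
      ((hF1 p₀ hU₃p).contDiffAt (hU₃o.mem_nhds hU₃p)).continuousAt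
    have h2 : ContinuousAt r p₀ := ((hrs p₀ hU₂p).contDiffAt (hU₂o.mem_nhds hU₂p)).continuousAt
    have h3 : ContinuousAt (Stf D f g r) p₀ :=
      ((hdat.Stf_smooth p₀ hU₃p).contDiffAt (hU₃o.mem_nhds hU₃p)).continuousAt
    exact (continuousAt_const.mul (h1.pow 2)).sub (h2.mul h3)
  have hF3 : 3 * dd D r p₀ ^ 2 - r p₀ * Stf D f g r p₀ = 0 := by
    by_contra hne
    have h1 := hF2.eventually_ne hne
    obtain ⟨V, hV, hVo, hwV⟩ := eventually_nhds_iff.1 h1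
    obtain ⟨q, hq, hqe⟩ := exists_id h hdim hn hsec hdat (fun q _ => rfl) (fun q _ => rfl)
      (fun q hq hqU => ((hU₁ q (hU₂s (hU₃s hqU))).2.2.2.2 hq).2.2) hρtr
      (hVo.inter hU₃o) inter_subset_right hp₀R ⟨hwV, hU₃p⟩
    exact hV q hq.1 (sub_eq_zero.2 hqe)
  have hr0 : r p₀ = 0 := h0
  rw [hr0, zero_mul, sub_zero] at hF3
  have hF4 : dd D r p₀ = 0 := by
    have h1 : dd D r p₀ ^ 2 = 0 := by linarith
    exact pow_eq_zero_iff (two_ne_zero) |>.1 h1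
  have hF5 : dd D r p₀ = fderiv ℝ ρ w₁ (D p₀).2 := by
    have h1 : DifferentiableAt ℝ ρ w₁ := dAt hr.isOpen hr.smooth hw
    have h2 : HasFDerivAt r ((fderiv ℝ ρ w₁).comp (ContinuousLinearMap.snd ℝ (E × E) (E × E))) p₀ :=
      HasFDerivAt.comp p₀ (g := ρ) (f := Prod.snd) h1.hasFDerivAt hasFDerivAt_snd
    show fderiv ℝ r p₀ (D p₀) = _
    rw [h2.fderiv]; rfl
  have hF6 : (D p₀).2 = k := Prod.ext hk0.symm hfp
  rw [← hF6, ← hF5, hF4]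

end Pool.Agent.H15.S5
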