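import Pool.Agent.H15.S5.Calc

/-!
# Section 5.2, `m = 2`: the second order identity
-/

set_option autoImplicit false

open scoped InnerProductSpace Topology ContDiff
open Set Filter

namespace Pool.Agent.H15.S5

open Pool.Agent.H59.Zar

variable {G : Type*} [NormedAddCommGroup G] [NormedSpace ℝ G] [FiniteDimensional ℝ G]
  {E : Type*} [NormedAddCommGroup E] [InnerProductSpace ℝ E] [FiniteDimensional ℝ E]

/-- The smooth data near the crossing. -/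
structure Dat (R O : Set G) (D : G → G) (w v f g : G → E) (ρ : G → ℝ) : Prop where
  isOpen : IsOpen O
  smD : ContDiffOn ℝ ∞ D O
  smw : ContDiffOn ℝ ∞ w O
  smv : ContDiffOn ℝ ∞ v O
  smf : ContDiffOn ℝ ∞ f O
  smg : ContDiffOn ℝ ∞ g O
  smρ : ContDiffOn ℝ ∞ ρ O
  tan : ∀ q ∈ R, q ∈ O → D q ∈ ZT R q
  dw : ∀ q ∈ O, dd D w q = ρ q • g q
  dv : ∀ q ∈ O, dd D v q = f q
  f0 : ∀ q ∈ O, f q ≠ 0
  g0 : ∀ q ∈ O, g q ≠ 0
  vf : ∀ q ∈ R, q ∈ O → ⟪v q, f q⟫_ℝ = 0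

variable {R O O' : Set G} {D : G → G} {w v f g : G → E} {ρ : G → ℝ}

theorem Dat.mono (h : Dat R O D w v f g ρ) (hO' : IsOpen O') (hs : O' ⊆ O) :
    Dat R O' D w v f g ρ where
  isOpen := hO'
  smD := h.smD.mono hs
  smw := h.smw.mono hs
  smv := h.smv.mono hs
  smf := h.smf.mono hs
  smg := h.smg.mono hs
  smρ := h.smρ.mono hs
  tan := fun q hq hqO => h.tan q hq (hs hqO)
  dw := fun q hq => h.dw q (hs hq)
  dv := fun q hq => h.dv q (hs hq)
  f0 := fun q hq => h.f0 q (hs hq)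
  g0 := fun q hq => h.g0 q (hs hq)
  vf := fun q hq hqO => h.vf q hq (hs hqO)

/-- `⟪f', f⟫ / |f|²` -/
noncomputable def qt (D : G → G) (f : G → E) (q : G) : ℝ := ⟪dd D f q, f q⟫_ℝ / ⟪f q, f q⟫_ℝ

/-- `⟪f'', f⟫ / |f|²` -/
noncomputable def qt2 (D : G → G) (f : G → E) (q : G) : ℝ :=
  ⟪dd D (dd D f) q, f q⟫_ℝ / ⟪f q, f q⟫_ℝ

theorem qt_smooth (hO : IsOpen O) (hD : ContDiffOn ℝ ∞ D O) (hf : ContDiffOn ℝ ∞ f O)
    (f0 : ∀ q ∈ O, f q ≠ 0) : ContDiffOn ℝ ∞ (qt D f) O :=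
  ((dd_smooth hO hD hf).inner ℝ hf).div (hf.inner ℝ hf) fun q hq => inner_self_ne_zero.2 (f0 q hq)

theorem qt2_smooth (hO : IsOpen O) (hD : ContDiffOn ℝ ∞ D O) (hf : ContDiffOn ℝ ∞ f O)
    (f0 : ∀ q ∈ O, f q ≠ 0) : ContDiffOn ℝ ∞ (qt2 D f) O :=
  ((dd_smooth hO hD (dd_smooth hO hD hf)).inner ℝ hf).div (hf.inner ℝ hf)
    fun q hq => inner_self_ne_zero.2 (f0 q hq)

/-- `σ` -/
noncomputable def sg (D : G → G) (f g : G → E) (q : G) : ℝ := qt D f q - qt D g q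

theorem Dat.sg_smooth (h : Dat R O D w v f g ρ) : ContDiffOn ℝ ∞ (sg D f g) O :=
  (qt_smooth h.isOpen h.smD h.smf h.f0).sub (qt_smooth h.isOpen h.smD h.smg h.g0)

/-- The remainder. -/
noncomputable def Stf (D : G → G) (f g : G → E) (ρ : G → ℝ) (q : G) : ℝ :=
  2 * dd D (dd D ρ) q - 8 * dd D ρ q * qt D g q - 4 * ρ q * qt2 D g q + 4 * ρ q * qt2 D f q
    - 6 * dd D ρ q * sg D f g q - 6 * ρ q * dd D (sg D f g) q
    + 6 * qt D f q * (dd D ρ q - ρ q * sg D f g q) + 3 * ρ q * sg D f g q ^ 2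

theorem Dat.Stf_smooth (h : Dat R O D w v f g ρ) : ContDiffOn ℝ ∞ (Stf D f g ρ) O := by
  have h1 := dd_smooth h.isOpen h.smD h.smρ
  have h2 := dd_smooth h.isOpen h.smD h1
  have h3 := qt_smooth h.isOpen h.smD h.smf h.f0
  have h4 := qt_smooth h.isOpen h.smD h.smg h.g0
  have h5 := qt2_smooth h.isOpen h.smD h.smf h.f0
  have h6 := qt2_smooth h.isOpen h.smD h.smg h.g0
  have h7 := h.sg_smooth
  have h8 := dd_smooth h.isOpen h.smD h7
  have c : ∀ a : ℝ, ContDiffOn ℝ ∞ (fun _ : G => a) O := fun a => contDiffOn_const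
  exact ((((((((c 2).mul h2).sub (((c 8).mul h1).mul h4)).sub (((c 4).mul h.smρ).mul h6)).add
    (((c 4).mul h.smρ).mul h5)).sub (((c 6).mul h1).mul h7)).sub (((c 6).mul h.smρ).mul h8)).add
    (((c 6).mul h3).mul (h1.sub (h.smρ.mul h7)))).add (((c 3).mul h.smρ).mul (h7.pow 2))

/-- The class data near a point: `B` is the derivative of the class function (constant along `D`),
`ν` the factor, `Cl` the dense set of exact class returns. -/
structure ClD (R O : Set G) (D : G → G) (w v f g : G → E) (ρ : G → ℝ)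
    (B : G → (E × E) →L[ℝ] E) (ν : G → ℝ) (Cl : Set G) : Prop where
  smB : ContDiffOn ℝ ∞ B O
  smν : ContDiffOn ℝ ∞ ν O
  dB : ∀ q ∈ R, q ∈ O → dd D B q = 0
  c1 : ∀ q ∈ R, q ∈ O → B q (w q, -(ν q • v q)) = 0
  ν0 : ∀ q ∈ R, q ∈ O → ν q ≠ 0
  sub : Cl ⊆ R
  dense : ∀ q ∈ R, q ∈ O → q ∈ closure (Cl ∩ O)
  tp : ∀ q ∈ Cl, q ∈ O → ∀ a b : E, B q (a, b) = 0 →
    ρ q * ⟪g q, g q⟫_ℝ * ⟪b, f q⟫_ℝ + ν q * ⟪f q, f q⟫_ℝ * ⟪a, g q⟫_ℝ = 0

variable {B : G → (E × E) →L[ℝ] E} {ν : G → ℝ} {Cl : Set G}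

theorem ClD.extend (h : Dat R O D w v f g ρ) (hc : ClD R O D w v f g ρ B ν Cl) {h₁ h₂ : G → ℝ}
    (s₁ : ContDiffOn ℝ ∞ h₁ O) (s₂ : ContDiffOn ℝ ∞ h₂ O) (he : ∀ q ∈ Cl, q ∈ O → h₁ q = h₂ q) :
    ∀ q ∈ R, q ∈ O → h₁ q = h₂ q := by
  intro q hq hqO
  have h1 : ContinuousAt h₁ q := ((s₁ q hqO).contDiffAt (h.isOpen.mem_nhds hqO)).continuousAt
  have h2 : ContinuousAt h₂ q := ((s₂ q hqO).contDiffAt (h.isOpen.mem_nhds hqO)).continuousAt
  have h3 : (𝓝[Cl ∩ O] q).NeBot := mem_closure_iff_nhdsWithin_neBot.1 (hc.dense q hq hqO)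
  have h4 : Tendsto h₁ (𝓝[Cl ∩ O] q) (𝓝 (h₁ q)) := h1.mono_left nhdsWithin_le_nhds
  have h5 : Tendsto h₂ (𝓝[Cl ∩ O] q) (𝓝 (h₂ q)) := h2.mono_left nhdsWithin_le_nhds
  have h6 : h₁ =ᶠ[𝓝[Cl ∩ O] q] h₂ := by
    filter_upwards [self_mem_nhdsWithin] with y hy
    exact he y hy.1 hy.2
  exact tendsto_nhds_unique h4 (h5.congr' h6.symm)

/-- The first derived pair. -/
noncomputable def Z₁ (D : G → G) (v f g : G → E) (ρ ν : G → ℝ) (q : G) : E × E :=
  (ρ q • g q, -(dd D ν q • v q + ν q • f q))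

/-- The second derived pair. -/
noncomputable def Z₂ (D : G → G) (v f g : G → E) (ρ ν : G → ℝ) (q : G) : E × E :=
  (dd D ρ q • g q + ρ q • dd D g q,
    -((dd D (dd D ν) q • v q + dd D ν q • f q) + (dd D ν q • f q + ν q • dd D f q)))

/-- The third derived pair. -/
noncomputable def Z₃ (D : G → G) (v f g : G → E) (ρ ν : G → ℝ) (q : G) : E × E :=
  ((dd D (dd D ρ) q • g q + dd D ρ q • dd D g q) + (dd D ρ q • dd D g q + ρ q • dd D (dd D g) q),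
    -(((dd D (dd D (dd D ν)) q • v q + dd D (dd D ν) q • f q) +
        (dd D (dd D ν) q • f q + dd D ν q • dd D f q)) +
      ((dd D (dd D ν) q • f q + dd D ν q • dd D f q) +
        (dd D ν q • dd D f q + ν q • dd D (dd D f) q))))

theorem ClD.kers (h : Dat R O D w v f g ρ) (hc : ClD R O D w v f g ρ B ν Cl) :
    (∀ q ∈ R, q ∈ O → B q (Z₂ D v f g ρ ν q) = 0) ∧
      ∀ q ∈ R, q ∈ O → B q (Z₃ D v f g ρ ν q) = 0 := by
  have hO := h.isOpen
  have sν := hc.smν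
  have sν1 := dd_smooth hO h.smD sν
  have sν2 := dd_smooth hO h.smD sν1
  have sρ1 := dd_smooth hO h.smD h.smρ
  have sf1 := dd_smooth hO h.smD h.smf
  have sg1 := dd_smooth hO h.smD h.smg
  have s0 : ContDiffOn ℝ ∞ (fun q => (w q, -(ν q • v q))) O := sm_prod h.smw (sm_neg (sm_smul sν h.smv))
  have s1 : ContDiffOn ℝ ∞ (Z₁ D v f g ρ ν) O :=
    sm_prod (sm_smul h.smρ h.smg) (sm_neg (sm_add (sm_smul sν1 h.smv) (sm_smul sν h.smf)))
  have s2 : ContDiffOn ℝ ∞ (Z₂ D v f g ρ ν) O :=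
    sm_prod (sm_add (sm_smul sρ1 h.smg) (sm_smul h.smρ sg1))
      (sm_neg (sm_add (sm_add (sm_smul sν2 h.smv) (sm_smul sν1 h.smf))
        (sm_add (sm_smul sν1 h.smf) (sm_smul sν sf1))))
  have e1 : ∀ q ∈ O, dd D (fun q => (w q, -(ν q • v q))) q = Z₁ D v f g ρ ν q := by
    intro q hq
    rw [dd_prod (dAt hO h.smw hq) (dAt hO (sm_neg (sm_smul sν h.smv)) hq), h.dw q hq, dd_neg,
      dd_smul (dAt hO sν hq) (dAt hO h.smv hq), h.dv q hq]
    rfl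
  have e2 : ∀ q ∈ O, dd D (Z₁ D v f g ρ ν) q = Z₂ D v f g ρ ν q := by
    intro q hq
    have := dd_prod (D := D) (dAt hO (sm_smul h.smρ h.smg) hq)
      (dAt hO (sm_neg (sm_add (sm_smul sν1 h.smv) (sm_smul sν h.smf))) hq)
    refine this.trans ?_
    rw [dd_smul (dAt hO h.smρ hq) (dAt hO h.smg hq)]
    have h2 : dd D (fun q => -(dd D ν q • v q + ν q • f q)) q =
        -((dd D (dd D ν) q • v q + dd D ν q • f q) + (dd D ν q • f q + ν q • dd D f q)) := by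
      rw [dd_neg, dd_add (dAt hO (sm_smul sν1 h.smv) hq) (dAt hO (sm_smul sν h.smf) hq),
        dd_smul (dAt hO sν1 hq) (dAt hO h.smv hq), dd_smul (dAt hO sν hq) (dAt hO h.smf hq),
        h.dv q hq]
    exact Prod.ext rfl h2
  have e3 : ∀ q ∈ O, dd D (Z₂ D v f g ρ ν) q = Z₃ D v f g ρ ν q := by
    intro q hq
    have := dd_prod (D := D) (dAt hO (sm_add (sm_smul sρ1 h.smg) (sm_smul h.smρ sg1)) hq)
      (dAt hO (sm_neg (sm_add (sm_add (sm_smul sν2 h.smv) (sm_smul sν1 h.smf))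
        (sm_add (sm_smul sν1 h.smf) (sm_smul sν sf1)))) hq)
    refine this.trans ?_
    have h1 : dd D (fun q => dd D ρ q • g q + ρ q • dd D g q) q =
        (dd D (dd D ρ) q • g q + dd D ρ q • dd D g q) +
          (dd D ρ q • dd D g q + ρ q • dd D (dd D g) q) := by
      rw [dd_add (dAt hO (sm_smul sρ1 h.smg) hq) (dAt hO (sm_smul h.smρ sg1) hq),
        dd_smul (dAt hO sρ1 hq) (dAt hO h.smg hq), dd_smul (dAt hO h.smρ hq) (dAt hO sg1 hq)]
    have h2 : dd D (fun q => -((dd D (dd D ν) q • v q + dd D ν q • f q) +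
        (dd D ν q • f q + ν q • dd D f q))) q =
        -(((dd D (dd D (dd D ν)) q • v q + dd D (dd D ν) q • f q) +
        (dd D (dd D ν) q • f q + dd D ν q • dd D f q)) +
      ((dd D (dd D ν) q • f q + dd D ν q • dd D f q) +
        (dd D ν q • dd D f q + ν q • dd D (dd D f) q))) := by
      rw [dd_neg, dd_add (dAt hO (sm_add (sm_smul sν2 h.smv) (sm_smul sν1 h.smf)) hq)
          (dAt hO (sm_add (sm_smul sν1 h.smf) (sm_smul sν sf1)) hq),
        dd_add (dAt hO (sm_smul sν2 h.smv) hq) (dAt hO (sm_smul sν1 h.smf) hq),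
        dd_add (dAt hO (sm_smul sν1 h.smf) hq) (dAt hO (sm_smul sν sf1) hq),
        dd_smul (dAt hO sν2 hq) (dAt hO h.smv hq), dd_smul (dAt hO sν1 hq) (dAt hO h.smf hq),
        dd_smul (dAt hO sν hq) (dAt hO sf1 hq), h.dv q hq]
    exact Prod.ext h1 h2
  have k1 : ∀ q ∈ R, q ∈ O → B q (Z₁ D v f g ρ ν q) = 0 := by
    intro q hq hqO
    rw [← e1 q hqO]
    exact dd_ker hO h.tan hc.smB hc.dB s0 hc.c1 q hq hqO
  have k2 : ∀ q ∈ R, q ∈ O → B q (Z₂ D v f g ρ ν q) = 0 := by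
    intro q hq hqO
    rw [← e2 q hqO]
    exact dd_ker hO h.tan hc.smB hc.dB s1 k1 q hq hqO
  refine ⟨k2, ?_⟩
  intro q hq hqO
  rw [← e3 q hqO]
  exact dd_ker hO h.tan hc.smB hc.dB s2 k2 q hq hqO

/-- Identity (A). -/
theorem ClD.idA (h : Dat R O D w v f g ρ) (hc : ClD R O D w v f g ρ B ν Cl) :
    ∀ q ∈ R, q ∈ O → ν q * dd D ρ q = ρ q * (2 * dd D ν q + ν q * sg D f g q) := by
  have hO := h.isOpen
  have sν1 := dd_smooth hO h.smD hc.smν
  refine hc.extend h (hc.smν.mul (dd_smooth hO h.smD h.smρ))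
    (h.smρ.mul ((contDiffOn_const.mul sν1).add (hc.smν.mul h.sg_smooth))) ?_
  intro q hq hqO
  have hf : ⟪f q, f q⟫_ℝ ≠ 0 := inner_self_ne_zero.2 (h.f0 q hqO)
  have hg : ⟪g q, g q⟫_ℝ ≠ 0 := inner_self_ne_zero.2 (h.g0 q hqO)
  have h1 := hc.tp q hq hqO _ _ ((hc.kers h).1 q (hc.sub hq) hqO)
  have hv := h.vf q (hc.sub hq) hqO
  rw [inner_neg_left, inner_add_left, inner_add_left, inner_add_left, inner_add_left,
    real_inner_smul_left, real_inner_smul_left, real_inner_smul_left, real_inner_smul_left,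
    real_inner_smul_left, hv] at h1
  show ν q * dd D ρ q = ρ q * (2 * dd D ν q + ν q * (qt D f q - qt D g q))
  unfold qt
  field_simp
  linear_combination h1

/-- Identity (B). -/
theorem ClD.idB (h : Dat R O D w v f g ρ) (hc : ClD R O D w v f g ρ B ν Cl) :
    ∀ q ∈ R, q ∈ O → ν q * (dd D (dd D ρ) q + 2 * dd D ρ q * qt D g q + ρ q * qt2 D g q) =
      ρ q * (3 * dd D (dd D ν) q + 3 * dd D ν q * qt D f q + ν q * qt2 D f q) := by
  have hO := h.isOpen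
  have sν1 := dd_smooth hO h.smD hc.smν
  have sν2 := dd_smooth hO h.smD sν1
  have sρ1 := dd_smooth hO h.smD h.smρ
  have sρ2 := dd_smooth hO h.smD sρ1
  have h3 := qt_smooth h.isOpen h.smD h.smf h.f0
  have h4 := qt_smooth h.isOpen h.smD h.smg h.g0
  have h5 := qt2_smooth h.isOpen h.smD h.smf h.f0
  have h6 := qt2_smooth h.isOpen h.smD h.smg h.g0
  refine hc.extend h (hc.smν.mul ((sρ2.add ((contDiffOn_const.mul sρ1).mul h4)).add
    (h.smρ.mul h6))) (h.smρ.mul (((contDiffOn_const.mul sν2).add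
      ((contDiffOn_const.mul sν1).mul h3)).add (hc.smν.mul h5))) ?_
  intro q hq hqO
  have hf : ⟪f q, f q⟫_ℝ ≠ 0 := inner_self_ne_zero.2 (h.f0 q hqO)
  have hg : ⟪g q, g q⟫_ℝ ≠ 0 := inner_self_ne_zero.2 (h.g0 q hqO)
  have h1 := hc.tp q hq hqO _ _ ((hc.kers h).2 q (hc.sub hq) hqO)
  have hv := h.vf q (hc.sub hq) hqO
  simp only [inner_neg_left, inner_add_left, real_inner_smul_left, hv] at h1
  unfold qt qt2
  field_simp
  linear_combination h1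

/-- **The second order identity.** -/
theorem ClD.main (h : Dat R O D w v f g ρ) (hc : ClD R O D w v f g ρ B ν Cl) :
    ∀ q ∈ R, q ∈ O → 3 * dd D ρ q ^ 2 = ρ q * Stf D f g ρ q := by
  intro q hq hqO
  have hO := h.isOpen
  have sν1 := dd_smooth hO h.smD hc.smν
  have sρ1 := dd_smooth hO h.smD h.smρ
  have a0 := hc.idA h q hq hqO
  have b0 := hc.idB h q hq hqO
  have hν := hc.ν0 q hq hqO
  -- the derivative of (A)
  have sL : ContDiffOn ℝ ∞ (fun q => ν q * dd D ρ q) O := hc.smν.mul sρ1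
  have s2 : ContDiffOn ℝ ∞ (fun q => 2 * dd D ν q) O := contDiffOn_const.mul sν1
  have s3 : ContDiffOn ℝ ∞ (fun q => ν q * sg D f g q) O := hc.smν.mul h.sg_smooth
  have s4 : ContDiffOn ℝ ∞ (fun q => 2 * dd D ν q + ν q * sg D f g q) O := s2.add s3
  have sR : ContDiffOn ℝ ∞ (fun q => ρ q * (2 * dd D ν q + ν q * sg D f g q)) O := h.smρ.mul s4
  have a1 := dd_van hO h.tan (sL.sub sR) (fun q hq hqO => by
    show ν q * dd D ρ q - ρ q * (2 * dd D ν q + ν q * sg D f g q) = 0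
    rw [hc.idA h q hq hqO, sub_self]) q hq hqO
  have a2 : dd D (fun q => ν q * dd D ρ q - ρ q * (2 * dd D ν q + ν q * sg D f g q)) q = 0 := a1
  rw [dd_sub (dAt hO sL hqO) (dAt hO sR hqO), dd_mul (dAt hO hc.smν hqO) (dAt hO sρ1 hqO),
    dd_mul (dAt hO h.smρ hqO) (dAt hO s4 hqO), dd_add (dAt hO s2 hqO) (dAt hO s3 hqO),
    dd_mul (differentiableAt_const _) (dAt hO sν1 hqO),
    dd_mul (dAt hO hc.smν hqO) (dAt hO h.sg_smooth hqO)] at a2
  have c0 : dd D (fun _ : G => (2 : ℝ)) q = 0 := by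
    show fderiv ℝ (fun _ : G => (2 : ℝ)) q (D q) = 0
    rw [fderiv_fun_const]; rfl
  rw [c0] at a2
  refine mul_left_cancel₀ hν ?_
  unfold Stf
  linear_combination (4 * ρ q) * b0 + (-6 * ρ q) * a2 +
    (-6 * ρ q * qt D f q + 3 * dd D ρ q + 3 * ρ q * sg D f g q) * a0

end Pool.Agent.H15.S5
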