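import Pool.Agent.H77.SN.Short
import Pool.Agent.H59.Zar.RelGood

/-!
# Transversality is an open condition
-/

set_option autoImplicit false
set_option linter.unusedSectionVars false

open scoped InnerProductSpace Topology ContDiff
open Set Filter

namespace Pool.Agent.H15.S5

open Pool.Agent.H91.GE hiding G1 G11 Nondeg Br exists_br cF smooth_cF Cfg mem_TSet_of_map
open Pool.Agent.H59.LV Pool.Agent.H59.ND Pool.Agent.H59.Zar
open Pool.Agent.H77.SN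

variable {E F : Type*} [NormedAddCommGroup E] [InnerProductSpace ℝ E] [FiniteDimensional ℝ E]
  [NormedAddCommGroup F] [InnerProductSpace ℝ F] [FiniteDimensional ℝ F]
  {S : Set E} {A : E × E → E} {K K₂ : NNReal} {Φ : ℝ → E × E → E × E} {n m : ℕ}

theorem tr_open (h : GFlow F S A K K₂ Φ) (hdim : Module.finrank ℝ E = Module.finrank ℝ F + n)
    {w : E × E} (hw : w ∈ OO Φ S m) (ht : Tr Φ S w) : ∀ᶠ w' in 𝓝[UT S] w, Tr Φ S w' := by
  have hR := retRel (Φ := Φ) (S := S) h hdim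
  obtain ⟨Q, ⟨O, hO, hQ⟩, hQY⟩ := hR.exists_projY hw.1
  have hQc : ContinuousAt Q w := (hQ.contDiffAt hO).continuousAt
  have hQw := hQY.self_of_nhdsWithin hw.1.1
  -- the constant of `Y w`
  obtain ⟨C, hC, hCb⟩ : ∃ C : ℝ, 0 < C ∧ ∀ k ∈ YY Φ S w, ‖k‖ ≤ C * ‖k.1‖ := by
    let f : YY Φ S w →ₗ[ℝ] E := (LinearMap.fst ℝ E E).comp (YY Φ S w).subtype
    have hker : LinearMap.ker f = ⊥ := by
      refine (LinearMap.ker_eq_bot').2 fun k hk => ?_
      exact Subtype.ext (ht k.1 k.2 hk)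
    obtain ⟨C, hC, hf⟩ := f.exists_antilipschitzWith hker
    refine ⟨C, hC, fun k hk => ?_⟩
    have h1 := hf.le_mul_dist ⟨k, hk⟩ 0
    rw [map_zero, dist_zero_right, dist_zero_right] at h1
    exact h1
  have hε : (0 : ℝ) < 1 / (2 * (1 + C)) := by positivity
  have h1 : ∀ᶠ w' in 𝓝[UT S] w, ‖Q w - Q w'‖ < 1 / (2 * (1 + C)) := by
    have h2 : Tendsto (fun w' => ‖Q w - Q w'‖) (𝓝 w) (𝓝 0) := by
      have h3 := (tendsto_const_nhds (x := Q w)).sub hQc.tendsto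
      rw [sub_self] at h3
      have h4 := h3.norm
      rwa [norm_zero] at h4
    exact nhdsWithin_le_nhds (h2.eventually (gt_mem_nhds hε))
  filter_upwards [h1, hQY] with w' h2 h3 a ha ha1
  have h4 : Q w' a = a := h3.2 a ha
  have h5 : Q w a ∈ YY Φ S w := hQw.1 a
  have h6 := hCb _ h5
  have h7 : ‖Q w a - a‖ ≤ 1 / (2 * (1 + C)) * ‖a‖ := by
    calc ‖Q w a - a‖ = ‖(Q w - Q w') a‖ := by rw [ContinuousLinearMap.sub_apply, h4]
      _ ≤ ‖Q w - Q w'‖ * ‖a‖ := ContinuousLinearMap.le_opNorm _ _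
      _ ≤ 1 / (2 * (1 + C)) * ‖a‖ := mul_le_mul_of_nonneg_right h2.le (norm_nonneg _)
  have h8 : ‖(Q w a).1‖ ≤ ‖Q w a - a‖ := by
    have h9 : ‖(Q w a - a).1‖ ≤ ‖Q w a - a‖ := norm_fst_le _
    rwa [Prod.fst_sub, ha1, sub_zero] at h9
  have h9 : ‖a‖ ≤ ‖Q w a‖ + ‖Q w a - a‖ := by
    have h10 : a = Q w a - (Q w a - a) := by abel
    calc ‖a‖ = ‖Q w a - (Q w a - a)‖ := by rw [← h10]
      _ ≤ _ := norm_sub_le _ _
  have h10 : ‖a‖ ≤ (1 + C) * ‖Q w a - a‖ := by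
    have := mul_le_mul_of_nonneg_left h8 hC.le
    linarith
  have h11 : ‖a‖ ≤ 1 / 2 * ‖a‖ := by
    calc ‖a‖ ≤ (1 + C) * ‖Q w a - a‖ := h10
      _ ≤ (1 + C) * (1 / (2 * (1 + C)) * ‖a‖) := mul_le_mul_of_nonneg_left h7 (by positivity)
      _ = 1 / 2 * ‖a‖ := by field_simp
  have h12 : ‖a‖ = 0 := by
    have := norm_nonneg a
    linarith
  exact norm_eq_zero.1 h12

end Pool.Agent.H15.S5
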